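import Mathlib
import Pool.Agent.Helper11.LE.Goals1
import Pool.Agent.Helper32.RP.LOB
import Pool.Agent.Helper59.RP.BIN

/-!
# LE-LOB: lower bound for the local conditions over `K`
-/

set_option autoImplicit false

namespace Pool.Agent.Helper96.LE

open NumberField Module IsDedekindDomain Pool.Agent.Helper51.RP
open Pool.Agent.Helper51.SigLeo Pool.Agent.Helper32.RP

theorem above_self {k K : Type} [NormedField k] [Field K] (T : Set (K →+* k)) :
    (above T : Set (K →+* k)) = T := by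
  ext τ
  have h : τ.comp (algebraMap K K) = τ := by
    ext y
    simp
  show τ.comp (algebraMap K K) ∈ T ↔ τ ∈ T
  rw [h]

theorem l_lob (h1 : Pool.Agent.Helper11.LE.L_LOG) : Pool.Agent.Helper11.LE.L_LOB := by
  intro p hp k _ _ _ _ hk L K _ _ T S 𝔪₀ v hS
  classical
  obtain ⟨F₁, hF₁c, hF₁n, hF₁d⟩ := h1 p k hk L K T
  have h2 := Pool.Agent.Helper59.RP.s_bin
  have v_mul := hS.add
  haveI : Finite S := hS.fin.to_subtype
  haveI : Fintype S := Fintype.ofFinite S
  have hab : (above T : Set (K →+* k)) = T := above_self T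
  have v_one : ∀ w ∈ S, v 1 w = 0 := by
    intro w hw
    have h := v_mul 1 1 w hw
    rw [mul_one] at h
    exact left_eq_add.1 h
  have v_inv : ∀ x, ∀ w ∈ S, v x⁻¹ w = - v x w := by
    intro x w hw
    have h := v_mul x x⁻¹ w hw
    rw [mul_inv_cancel, v_one w hw] at h
    exact (neg_eq_of_add_eq_zero_right h.symm).symm
  have hY : ∀ c : S → ZMod p, ∃ y : Kˣ, ∀ w : S, v y w = c w := by
    intro c
    obtain ⟨y, hy⟩ := hS.surj (fun w => if h : w ∈ S then c ⟨w, h⟩ else 0)
    refine ⟨y, fun w => ?_⟩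
    rw [hy w w.2, dif_pos w.2]
  choose Y hY using hY
  have hX : ∀ x : Kˣ, ∃ x' : Kˣ, x ∈ F₁ → (∀ w ∈ S, v x' w = 0) ∧
      ∀ τ ∈ T, ‖τ ((x' / x : Kˣ) : K) - 1‖ ≤ (1 / p : ℝ) ^ 3 := by
    intro x
    by_cases hx : x ∈ F₁
    · obtain ⟨x', hx'⟩ := hS.approx x (by rw [hab]; exact hF₁n x hx)
      rw [hab] at hx'
      exact ⟨x', fun _ => hx'⟩
    · exact ⟨1, fun h => absurd h hx⟩
  choose X' hX' using hX
  let f : Kˣ × (S → ZMod p) → Kˣ := fun q => X' q.1 * Y q.2
  have hpair : ∀ q ∈ F₁ ×ˢ (Finset.univ : Finset (S → ZMod p)),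
      ∀ q' ∈ F₁ ×ˢ (Finset.univ : Finset (S → ZMod p)), LSat L T S v (f q / f q') → q = q' := by
    rintro ⟨x, c⟩ hp ⟨x1, c1⟩ hp' hdiv
    obtain ⟨hx, -⟩ := Finset.mem_product.1 hp
    obtain ⟨hx1, -⟩ := Finset.mem_product.1 hp'
    simp only at hx hx1
    have hv := hdiv.1
    have hcc : c = c1 := by
      funext w
      have h6 := hv w w.2
      simp only [f] at h6
      rw [div_eq_mul_inv, v_mul _ _ _ w.2, v_inv _ _ w.2, v_mul _ _ _ w.2, v_mul _ _ _ w.2,
        (hX' x hx).1 w w.2, (hX' x1 hx1).1 w w.2, zero_add, zero_add, hY, hY] at h6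
      exact sub_eq_zero.1 (by rw [sub_eq_add_neg]; exact h6)
    subst hcc
    have h7 : f (x, c) / f (x1, c) = X' x / X' x1 := by
      simp only [f]
      exact mul_div_mul_right_eq_div _ _ _
    rw [h7] at hdiv
    have h8 := hdiv.2
    have h9 : LocSig L T (X' x / x) := h2 p k L K _ _ (hX' x hx).2
    have h10 : LocSig L T (X' x1 / x1) := h2 p k L K _ _ (hX' x1 hx1).2
    have h11 := locSig_mul L (locSig_div L h8 h9) h10
    have h12 : X' x / X' x1 / (X' x / x) * (X' x1 / x1) = x / x1 := by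
      rw [div_div_div_cancel_left, div_mul_div_cancel]
    rw [h12] at h11
    by_contra hne
    exact hF₁d x hx x1 hx1 (fun h => hne (by rw [h])) h11
  refine ⟨(F₁ ×ˢ (Finset.univ : Finset (S → ZMod p))).image f, ?_, ?_⟩
  · rw [Finset.card_image_of_injOn, Finset.card_product, hF₁c, Finset.card_univ, Fintype.card_fun,
      ZMod.card, pow_add, mul_comm]
    · congr 2
      rw [← Nat.card_eq_fintype_card, Nat.card_coe_set_eq]
    · intro q hq q' hq' h
      refine hpair q (Finset.mem_coe.1 hq) q' (Finset.mem_coe.1 hq') ?_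
      rw [h, div_self']
      exact ⟨v_one, locSig_one L⟩
  · intro x hx y hy hxy hcon
    obtain ⟨q, hq, rfl⟩ := Finset.mem_image.1 hx
    obtain ⟨q', hq', rfl⟩ := Finset.mem_image.1 hy
    exact hxy (by rw [hpair q hq q' hq' hcon])

end Pool.Agent.Helper96.LE
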